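import Pool.Agent.Lib.MP_7903c7_al.PT.Main
import Pool.Agent.Lib.MP_7903c7_al.B.Fin

set_option autoImplicit false

/-!
The Bass trace conjecture over commutative integral domains.
-/

namespace Pool.Agent.Lib.MP_7903c7_al.Old.Full

open scoped Classical

/-- The value at the conjugacy class of `g` of the Hattori-Stallings rank of a square matrix over
the group ring: the sum, over the diagonal entries, of the coefficients at the conjugates of `g`. -/
noncomputable def classTrace {R G : Type} [CommRing R] [Group G] {n : ℕ}
    (A : Matrix (Fin n) (Fin n) (MonoidAlgebra R G)) (g : G) : R :=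
  ∑ i : Fin n, ∑ h ∈ (A i i).coeff.support with IsConj h g, (A i i).coeff h

/-- The Bass trace conjecture. -/
theorem result (R : Type) [CommRing R] [IsDomain R] (G : Type) [Group G] (n : ℕ)
    (A : Matrix (Fin n) (Fin n) (MonoidAlgebra R G)) (hA : A * A = A) (g : G)
    (hg : ¬ IsUnit ((orderOf g : ℕ) : R)) : classTrace A g = 0 := by
  have h := Pool.Agent.Lib.MP_7903c7_al.Fin.of_core
    (fun h0 _ _ _ hp _ _ _ hA' => Pool.Agent.Lib.MP_7903c7_al.PT.core hp.out hA' h0) hA hg
  simp only [← Pool.Agent.Lib.MP_7903c7_al.tau0_eq_finsum] at h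
  rw [← h]
  exact Finset.sum_congr rfl fun i _ => Finset.sum_filter _ _

end Pool.Agent.Lib.MP_7903c7_al.Old.Full
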